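import Pool.Agent.U180.NG.Stm

/-! Project NG (helper180), package EXP (helper594): the rows of the circle are two halves. -/

set_option autoImplicit false

namespace Pool.Agent.U594.NG

open Pool.Agent.U180.NG
open Pool.Agent.H469R2.NK (e)

theorem sum_up (f : ℤ → ℂ) (p q : ℤ) :
    ∑ m ∈ Finset.Icc p q, f m = ∑ n ∈ Finset.range (q - p + 1).toNat, f (p + n) := by
  refine Finset.sum_nbij' (fun m => (m - p).toNat) (fun n : ℕ => p + n) ?_ ?_ ?_ ?_ ?_
  · intro m hm
    simp only [Finset.mem_Icc] at hm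
    simp only [Finset.mem_range]
    omega
  · intro n hn
    simp only [Finset.mem_range] at hn
    simp only [Finset.mem_Icc]
    omega
  · intro m hm
    simp only [Finset.mem_Icc] at hm
    omega
  · intro n hn
    omega
  · intro m hm
    simp only [Finset.mem_Icc] at hm
    congr 1
    omega

theorem sum_down (f : ℤ → ℂ) (p q : ℤ) :
    ∑ m ∈ Finset.Icc q (p - 1), f m = ∑ n ∈ Finset.range (p - q).toNat, f (p - 1 - n) := by
  refine Finset.sum_nbij' (fun m => (p - 1 - m).toNat) (fun n : ℕ => p - 1 - n) ?_ ?_ ?_ ?_ ?_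
  · intro m hm
    simp only [Finset.mem_Icc] at hm
    simp only [Finset.mem_range]
    omega
  · intro n hn
    simp only [Finset.mem_range] at hn
    simp only [Finset.mem_Icc]
    omega
  · intro m hm
    simp only [Finset.mem_Icc] at hm
    omega
  · intro n hn
    omega
  · intro m hm
    simp only [Finset.mem_Icc] at hm
    congr 1
    omega

theorem t_EXP (h : S_HALF) : S_EXP := by
  obtain ⟨C, hC, hH⟩ := h
  refine ⟨2 * C, by positivity, ?_⟩
  intro k R y hk hR
  set p : ℤ := ⌈-y⌉ with hp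
  set lo : ℤ := ⌈-R - y⌉ with hlo
  set hi : ℤ := ⌊R - y⌋ with hhi
  have hp1 : -y ≤ (p : ℝ) := Int.le_ceil _
  have hp2 : (p : ℝ) < -y + 1 := Int.ceil_lt_add_one _
  have hlo1 : -R - y ≤ (lo : ℝ) := Int.le_ceil _
  have hhi1 : (hi : ℝ) ≤ R - y := Int.floor_le _
  have hlop : lo ≤ p := Int.ceil_le_ceil (by linarith)
  have hphi : p ≤ hi := by
    rw [hhi, Int.le_floor]
    linarith
  have hsplit : rows R y = Finset.Icc lo (p - 1) ∪ Finset.Icc p hi := by
    unfold rows
    ext m
    simp only [Finset.mem_union, Finset.mem_Icc]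
    omega
  have hdisj : Disjoint (Finset.Icc lo (p - 1)) (Finset.Icc p hi) := by
    rw [Finset.disjoint_left]
    intro m h1 h2
    simp only [Finset.mem_Icc] at h1 h2
    omega
  rw [hsplit, Finset.sum_union hdisj, sum_down, sum_up]
  have h1 := hH k (hi - p + 1).toNat R (p + y) hk hR (by linarith) (by
    have e1 : (((hi - p + 1).toNat : ℕ) : ℝ) = (hi : ℝ) - p + 1 := by
      have e2 : (((hi - p + 1).toNat : ℕ) : ℤ) = hi - p + 1 := Int.toNat_of_nonneg (by omega)
      exact_mod_cast congrArg (Int.cast : ℤ → ℝ) e2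
    rw [e1]
    linarith)
  have h2 := hH k (p - lo).toNat R (1 - p - y) hk hR (by linarith) (by
    have e1 : (((p - lo).toNat : ℕ) : ℝ) = (p : ℝ) - lo := by
      have e2 : (((p - lo).toNat : ℕ) : ℤ) = p - lo := Int.toNat_of_nonneg (by omega)
      exact_mod_cast congrArg (Int.cast : ℤ → ℝ) e2
    rw [e1]
    linarith)
  have h3 : ∀ n : ℕ, hl R y (p + n) = Real.sqrt (R ^ 2 - (p + y + n) ^ 2) := by
    intro n
    unfold hl
    push_cast
    congr 2
    ring
  have h4 : ∀ n : ℕ, hl R y (p - 1 - n) = Real.sqrt (R ^ 2 - (1 - p - y + n) ^ 2) := by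
    intro n
    unfold hl
    push_cast
    congr 1
    ring
  simp only [h3, h4]
  calc _ ≤ C * Real.sqrt (k * R) + C * Real.sqrt (k * R) := (norm_add_le _ _).trans (add_le_add h2 h1)
    _ = _ := by ring

end Pool.Agent.U594.NG
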